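import Pool.Agent.Y840.CT.Low

/-!
# Chen's theorem for sums of two almost twin primes

Every large even `n` is `p + m` where `p` is prime, `m` is a product of at most two primes, and
`p ± 2` and `m ± 2` are almost primes; and the same with `p ± 2` (or `m ± 2`) as the product of at
most two primes. Lower bound of the expected order of magnitude in all intervals of length `θ n`, and
narrow progressions of such primes `p`.
-/

set_option autoImplicit false

open Finset Filter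

namespace Pool.Agent.Results.MP_c6d112_nt.ChenTwinSums

/-- `k ≥ 1` is a product of at most `t` primes, all of them larger than `y` -/
def Rough (t : ℕ) (y : ℝ) (k : ℤ) : Prop :=
  0 < k ∧ k.natAbs.primeFactorsList.length ≤ t ∧ ∀ q : ℕ, q.Prime → (q : ℤ) ∣ k → y < q

/-- the number of the residue classes modulo `q` of `0`, `n`, `-s₁`, `n + s₂` -/
def rho (n s₁ s₂ : ℤ) (q : ℕ) : ℕ := (({0, n, -s₁, n + s₂} : Finset ℤ).image (fun h : ℤ => h % q)).card

/-- the signs fit to `n`: both are `2` or `-2`, and there is no obstruction modulo `3` for the four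
numbers `p`, `p + s₁`, `n - p`, `n - p + s₂` -/
def Fit (n s₁ s₂ : ℤ) : Prop := (s₁ = 2 ∨ s₁ = -2) ∧ (s₂ = 2 ∨ s₂ = -2) ∧ rho n s₁ s₂ 3 < 3

/-- the three numbers `p + s₁`, `n - p`, `n - p + s₂` -/
def num (n s₁ s₂ : ℤ) (p : ℕ) (i : Fin 3) : ℤ := ![(p : ℤ) + s₁, n - p, n - p + s₂] i

open Classical in
/-- the primes `p > (2 n) ^ (1/t)` of `(A, B]` for which `p + s₁`, `m = n - p`, `m + s₂` are products of
at most `t` primes `> (2 n) ^ (1/t)`, and the `i`-th of them is a product of at most two primes, both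
`> (2 n) ^ (1/9)` -/
noncomputable def P (t n : ℕ) (s₁ s₂ : ℤ) (i : Fin 3) (A B : ℕ) : Finset ℕ :=
  (Ioc A B).filter (fun p : ℕ => p.Prime ∧ (2 * (n : ℝ)) ^ (1 / (t : ℝ)) < p ∧
    Rough 2 ((2 * (n : ℝ)) ^ (1 / 9 : ℝ)) (num n s₁ s₂ p i) ∧
    ∀ j : Fin 3, Rough t ((2 * (n : ℝ)) ^ (1 / (t : ℝ))) (num n s₁ s₂ p j))

/-- the sieve product over the primes `q ≤ 2 n` -/
noncomputable def V (n : ℕ) (s₁ s₂ : ℤ) : ℝ :=
  ∏ q ∈ (Icc 1 (2 * n)).filter Nat.Prime, (1 - (rho n s₁ s₂ q : ℝ) / q)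

theorem fit_exists (n : ℤ) : ∃ s₁ s₂ : ℤ, Fit n s₁ s₂ := by
  have h3 : n % 3 = 0 ∨ n % 3 = 1 ∨ n % 3 = 2 := by omega
  have key : ∀ s₁ s₂ : ℤ, ∀ a b : ℤ, (-s₁) % 3 = a → (n + s₂) % 3 = b → rho n s₁ s₂ 3 =
      (({0, n % 3, a, b} : Finset ℤ)).card := by
    intro s₁ s₂ a b h1 h2
    unfold rho
    rw [image_insert, image_insert, image_insert, image_singleton]
    push_cast
    rw [h1, h2]
  rcases h3 with h | h | h
  · refine ⟨2, -2, Or.inl rfl, Or.inr rfl, ?_⟩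
    rw [key 2 (-2) 1 1 (by norm_num) (by omega), h]
    decide
  · refine ⟨2, 2, Or.inl rfl, Or.inl rfl, ?_⟩
    rw [key 2 2 1 0 (by norm_num) (by omega), h]
    decide
  · refine ⟨-2, -2, Or.inr rfl, Or.inr rfl, ?_⟩
    rw [key (-2) (-2) 2 0 (by norm_num) (by omega), h]
    decide

/-- the shifts -/
def Hs (n s₁ s₂ : ℤ) : Finset ℤ := {-s₁, n, n + s₂}

/-- the shift of the `i`-th number -/
def hs (n s₁ s₂ : ℤ) (i : Fin 3) : ℤ := ![-s₁, n, n + s₂] i

theorem hs_mem (n s₁ s₂ : ℤ) (i : Fin 3) : hs n s₁ s₂ i ∈ Hs n s₁ s₂ := by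
  unfold hs Hs
  fin_cases i <;> simp

theorem mem_Hs {n s₁ s₂ h : ℤ} (hh : h ∈ Hs n s₁ s₂) : ∃ i, h = hs n s₁ s₂ i := by
  unfold Hs at hh
  rw [mem_insert, mem_insert, mem_singleton] at hh
  rcases hh with rfl | rfl | rfl
  · exact ⟨0, rfl⟩
  · exact ⟨1, rfl⟩
  · exact ⟨2, rfl⟩

theorem num_hs (n s₁ s₂ : ℤ) (p : ℕ) (i : Fin 3) :
    hs n s₁ s₂ i - p = num n s₁ s₂ p i ∨ hs n s₁ s₂ i - p = - num n s₁ s₂ p i := by
  unfold hs num
  fin_cases i
  · right
    show -s₁ - (p : ℤ) = -((p : ℤ) + s₁)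
    ring
  · left
    rfl
  · left
    show n + s₂ - (p : ℤ) = n - p + s₂
    ring

theorem rho_eq (n s₁ s₂ : ℤ) (q : ℕ) : Pool.Agent.Y840.CT.rho (Hs n s₁ s₂) q = rho n s₁ s₂ q := by
  unfold Pool.Agent.Y840.CT.rho rho Hs
  congr 2
  ext x
  simp only [mem_insert, mem_singleton]
  tauto

theorem sys {n : ℕ} {s₁ s₂ : ℤ} (hn : 4 ≤ n) (he : Even n) (hf : Fit n s₁ s₂) :
    Pool.Agent.Y840.CT.Sys 3 (2 * n) (Hs n s₁ s₂) := by
  obtain ⟨h1, h2, h3⟩ := hf
  constructor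
  · exact card_le_three
  · intro h hh
    unfold Hs at hh
    rw [mem_insert, mem_insert, mem_singleton] at hh
    rw [abs_le]
    push_cast
    rcases hh with rfl | rfl | rfl <;> rcases h1 with rfl | rfl <;> rcases h2 with rfl | rfl <;>
      refine ⟨?_, ?_, ?_⟩ <;> omega
  · intro q hq
    rw [rho_eq]
    rcases Nat.lt_or_ge q 5 with hq5 | hq5
    · interval_cases q
      · exact absurd hq (by norm_num)
      · exact absurd hq (by norm_num)
      · -- `q = 2`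
        have e : (({0, (n : ℤ), -s₁, n + s₂} : Finset ℤ).image (fun h : ℤ => h % (2 : ℕ))) ⊆ {0} := by
          intro x hx
          rw [mem_image] at hx
          obtain ⟨y, hy, rfl⟩ := hx
          simp only [mem_insert, mem_singleton] at hy ⊢
          obtain ⟨m, hm⟩ := he
          push_cast
          rcases hy with rfl | rfl | rfl | rfl <;> rcases h1 with rfl | rfl <;> rcases h2 with rfl | rfl <;> omega
        unfold rho
        exact lt_of_le_of_lt (card_le_card e) (by simp)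
      · exact h3
      · exact absurd hq (by norm_num)
    · unfold rho
      refine lt_of_le_of_lt (card_image_le.trans ?_) hq5
      exact card_le_four

theorem rough_of {t : ℕ} {y : ℝ} {k l : ℤ} (hkl : l = k ∨ l = -k) (hk : Pool.Agent.Y840.CT.Rough t y l)
    (h0 : 0 ≤ k) : Rough t y k := by
  obtain ⟨h1, h2, h3⟩ := hk
  refine ⟨?_, ?_, ?_⟩
  · rcases hkl with rfl | rfl <;> omega
  · rcases hkl with rfl | rfl
    · exact h2
    · rwa [Int.natAbs_neg] at h2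
  · intro q hq hd
    apply h3 q hq
    rcases hkl with rfl | rfl
    · exact hd
    · exact (dvd_neg).2 hd

theorem of_rough {t : ℕ} {y : ℝ} {k l : ℤ} (hkl : l = k ∨ l = -k) (hk : Rough t y k) :
    Pool.Agent.Y840.CT.Rough t y l := by
  obtain ⟨h1, h2, h3⟩ := hk
  refine ⟨?_, ?_, ?_⟩
  · rcases hkl with rfl | rfl <;> omega
  · rcases hkl with rfl | rfl
    · exact h2
    · rwa [Int.natAbs_neg]
  · intro q hq hd
    apply h3 q hq
    rcases hkl with rfl | rfl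
    · exact hd
    · exact (dvd_neg).1 hd

theorem P_eq {t n : ℕ} {s₁ s₂ : ℤ} (hf : Fit n s₁ s₂) (i : Fin 3) {A B : ℕ} (hB : B + 3 ≤ n) :
    P t n s₁ s₂ i A B = Pool.Agent.Y840.CT.Good t (2 * n) A B (Hs n s₁ s₂) (hs n s₁ s₂ i) := by
  classical
  obtain ⟨h1, h2, -⟩ := hf
  unfold P Pool.Agent.Y840.CT.Good
  apply filter_congr
  intro p hp
  rw [mem_Ioc] at hp
  push_cast
  constructor
  · rintro ⟨a1, a2, a3, a4⟩
    refine ⟨a1, a2, of_rough (num_hs _ _ _ _ _) a3, ?_⟩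
    intro h hh
    obtain ⟨j, rfl⟩ := mem_Hs hh
    exact of_rough (num_hs _ _ _ _ _) (a4 j)
  · rintro ⟨a1, a2, a3, a4⟩
    have hpos : ∀ j : Fin 3, 0 ≤ num n s₁ s₂ p j := by
      intro j
      have hp2 := a1.two_le
      unfold num
      fin_cases j
      · show 0 ≤ (p : ℤ) + s₁
        rcases h1 with rfl | rfl <;> omega
      · show 0 ≤ (n : ℤ) - p
        omega
      · show 0 ≤ (n : ℤ) - p + s₂
        rcases h2 with rfl | rfl <;> omega
    refine ⟨a1, a2, rough_of (num_hs _ _ _ _ _) a3 (hpos i), ?_⟩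
    intro j
    exact rough_of (num_hs _ _ _ _ _) (a4 _ (hs_mem _ _ _ j)) (hpos j)

theorem V_eq (n : ℕ) (s₁ s₂ : ℤ) : V n s₁ s₂ = Pool.Agent.Y840.CT.Vp (Hs n s₁ s₂) (2 * n) := by
  unfold V Pool.Agent.Y840.CT.Vp
  apply prod_congr rfl
  intro q _
  rw [rho_eq]

/-- Let `t`, `c` be suitable absolute constants. (0) Every integer has fitting signs.
(1) For every `θ > 0`, every large even `n`, all fitting signs, all intervals `(A, B]` with
`B + 3 ≤ n`, `B - A ≥ θ n`, and all `i`, the set `P` has at least `c (B - A) V(n)` elements, and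
`V(n) ≥ c / log ^ 4 n`. (2) For all `k`, `θ`, `δ` there is `D` such that moreover every subset of `P` with
at least `δ #P` elements contains a `k`-term progression with difference at most `log ^ D n`. -/
theorem result : ∃ t : ℕ, 1 ≤ t ∧ ∃ c : ℝ, 0 < c ∧
    (∀ n : ℤ, ∃ s₁ s₂ : ℤ, Fit n s₁ s₂) ∧
    (∀ θ : ℝ, 0 < θ → ∃ n₀ : ℕ, ∀ n : ℕ, n₀ ≤ n → Even n → ∀ s₁ s₂ : ℤ, Fit n s₁ s₂ →
      c / Real.log n ^ 4 ≤ V n s₁ s₂ ∧
      ∀ A B : ℕ, B + 3 ≤ n → θ * n ≤ (B : ℝ) - A → ∀ i : Fin 3,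
        c * ((B : ℝ) - A) * V n s₁ s₂ ≤ ((P t n s₁ s₂ i A B).card : ℝ)) ∧
    (∀ k : ℕ, ∀ θ δ : ℝ, 0 < θ → 0 < δ → ∃ D n₀ : ℕ, ∀ n : ℕ, n₀ ≤ n → Even n →
      ∀ s₁ s₂ : ℤ, Fit n s₁ s₂ → ∀ A B : ℕ, B + 3 ≤ n → θ * n ≤ (B : ℝ) - A → ∀ i : Fin 3,
        ∀ S : Finset ℕ, S ⊆ P t n s₁ s₂ i A B → δ * ((P t n s₁ s₂ i A B).card : ℝ) ≤ S.card →
          ∃ a d : ℕ, 1 ≤ d ∧ (d : ℝ) ≤ Real.log n ^ D ∧ ∀ j < k, a + j * d ∈ S) := by
  obtain ⟨t, ht, c, hc, H1, H2⟩ := Pool.Agent.Y840.CT.genI 3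
  obtain ⟨c2, hc2, hV⟩ := Pool.Agent.Y840.CT.Vp_low 3
  -- `log (2 n) ≤ 2 log n ≤ log ^ 2 n`
  have hlog : ∀ n : ℕ, 8 ≤ n → 2 ≤ Real.log n ∧ 0 < Real.log (2 * n) ∧ Real.log (2 * n) ≤ 2 * Real.log n ∧
      Real.log (2 * n) ≤ Real.log n ^ 2 := by
    intro n hn
    have hnr : (8 : ℝ) ≤ n := by exact_mod_cast hn
    have h1 : 2 ≤ Real.log n := by
      have h2 : Real.log 8 ≤ Real.log n := Real.log_le_log (by norm_num) hnr
      have h3 : Real.log 8 = 3 * Real.log 2 := by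
        rw [show (8 : ℝ) = 2 ^ 3 by norm_num, Real.log_pow]
        norm_num
      have := Real.log_two_gt_d9
      linarith
    have h2 : Real.log (2 * n) = Real.log 2 + Real.log n := Real.log_mul (by norm_num) (by positivity)
    have h3 := Real.log_two_lt_d9
    have h4 := Real.log_two_gt_d9
    refine ⟨h1, by rw [h2]; linarith, by rw [h2]; linarith, ?_⟩
    rw [h2]
    nlinarith
  refine ⟨t, ht, min c (c2 / 16), by positivity, fit_exists, ?_, ?_⟩
  · intro θ hθ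
    obtain ⟨X₀, h1⟩ := H1 (θ / 2) (by positivity)
    refine ⟨max X₀ 8, fun n hn he s₁ s₂ hf => ?_⟩
    have hn8 : 8 ≤ n := (le_max_right _ _).trans hn
    have hnX : X₀ ≤ 2 * n := by
      have := (le_max_left X₀ 8).trans hn
      omega
    have hS := sys (by omega) he hf
    obtain ⟨l1, l0, l2, -⟩ := hlog n hn8
    have hVn : c2 / 16 / Real.log n ^ 4 ≤ V n s₁ s₂ := by
      rw [V_eq]
      refine le_trans ?_ (hV (2 * n) (by omega) (Hs n s₁ s₂) hS.card hS.loc)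
      push_cast
      rw [div_div]
      apply div_le_div_of_nonneg_left hc2.le (by positivity)
      calc Real.log (2 * n) ^ (3 + 1) ≤ (2 * Real.log n) ^ (3 + 1) := pow_le_pow_left₀ l0.le l2 _
        _ = 16 * Real.log n ^ 4 := by ring
    have hV0 : 0 ≤ V n s₁ s₂ := le_trans (by positivity) hVn
    refine ⟨?_, ?_⟩
    · refine le_trans ?_ hVn
      apply div_le_div_of_nonneg_right (min_le_right _ _)
      positivity
    · intro A B hB hAB i
      have hBA : 0 ≤ (B : ℝ) - A := le_trans (by positivity) hAB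
      rw [P_eq hf i hB]
      refine le_trans ?_ (h1 (2 * n) hnX _ hS _ (hs_mem _ _ _ i) A B (by omega) ?_)
      · rw [← V_eq]
        apply mul_le_mul_of_nonneg_right _ hV0
        exact mul_le_mul_of_nonneg_right (min_le_left _ _) hBA
      · push_cast
        linarith
  · intro k θ δ hθ hδ
    obtain ⟨D, X₀, h1⟩ := H2 k (θ / 2) δ (by positivity) hδ
    refine ⟨2 * D, max X₀ 8, fun n hn he s₁ s₂ hf A B hB hAB i S hS1 hS2 => ?_⟩
    have hn8 : 8 ≤ n := (le_max_right _ _).trans hn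
    have hnX : X₀ ≤ 2 * n := by
      have := (le_max_left X₀ 8).trans hn
      omega
    have hS := sys (by omega) he hf
    obtain ⟨l1, l0, -, l3⟩ := hlog n hn8
    rw [P_eq hf i hB] at hS1 hS2
    obtain ⟨a, d, h2, h3, h4⟩ := h1 (2 * n) hnX _ hS _ (hs_mem _ _ _ i) A B (by omega) (by
      push_cast
      linarith) S hS1 hS2
    refine ⟨a, d, h2, h3.trans ?_, h4⟩
    rw [pow_mul]
    push_cast
    exact pow_le_pow_left₀ l0.le l3 D

end Pool.Agent.Results.MP_c6d112_nt.ChenTwinSums
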