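import Pool.Agent.Y816.PD.UniL

set_option autoImplicit false

/-!
# Even numbers as sums of two twin almost primes with restricted digits

For every large even `N` the integers `n < b ^ K`, `K = log_b (N / 2)` (integer part), whose `i`-th digit in base `b`
belongs to an arbitrary set `A i` for all `i < K` are considered, the product of the `|A i|` being at least
`exp (- c K) b ^ K`.
-/

namespace Pool.Agent.Results.MP_c6d112_nt.RestrictedDigits

open Finset Filter Polynomial
open Pool.Agent.Y816.PD (ND NA Alm Rgh WG)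

/-- `n + e N` is the twin of the first summand `n` of `N`. -/
def e (N : ℕ) : ℤ := if N % 3 = 2 then -2 else 2

/-- `N - n + f N` is the twin of the second summand `N - n` of `N`. -/
def f (N : ℕ) : ℤ := if N % 3 = 1 then 2 else -2

/-- The product of the two summands and their twins. -/
def G (N n : ℕ) : ℤ := (n : ℤ) * ((n : ℤ) + e N) * ((N : ℤ) - n) * ((N : ℤ) - n + f N)

lemma adm {N : ℕ} (hN : Even N) (p : ℕ) (hp : p.Prime) : ∃ n : ℕ, ¬ (p : ℤ) ∣ G N n := by
  have hpz := Nat.prime_iff_prime_int.1 hp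
  rcases Nat.lt_or_ge p 5 with h5 | h5
  · have hp2 : p = 2 ∨ p = 3 := by
      have := hp.two_le
      have h4 : p ≠ 4 := by rintro rfl; norm_num at hp
      omega
    have he : e N = 2 ∨ e N = -2 := by unfold e; split_ifs <;> simp
    have hf : f N = 2 ∨ f N = -2 := by unfold f; split_ifs <;> simp
    rcases hp2 with rfl | rfl
    · refine ⟨1, fun h => ?_⟩
      unfold G at h
      obtain ⟨M, hM⟩ := hN
      have hNz : (N : ℤ) = M + M := by exact_mod_cast hM
      rcases hpz.dvd_or_dvd h with h | h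
      · rcases hpz.dvd_or_dvd h with h | h
        · rcases hpz.dvd_or_dvd h with h | h
          · obtain ⟨t, ht⟩ := h
            push_cast at ht
            omega
          · obtain ⟨t, ht⟩ := h
            push_cast at ht
            omega
        · obtain ⟨t, ht⟩ := h
          push_cast at ht
          omega
      · obtain ⟨t, ht⟩ := h
        push_cast at ht
        omega
    · obtain ⟨n0, hn0⟩ : ∃ n0 : ℕ, n0 = if N % 3 = 2 then 1 else 2 := ⟨_, rfl⟩
      refine ⟨n0, fun h => ?_⟩
      unfold G e f at h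
      have h3 : N % 3 = 0 ∨ N % 3 = 1 ∨ N % 3 = 2 := by omega
      rcases hpz.dvd_or_dvd h with h | h
      · rcases hpz.dvd_or_dvd h with h | h
        · rcases hpz.dvd_or_dvd h with h | h
          · rcases h3 with h3 | h3 | h3 <;> simp only [h3] at hn0 h <;> norm_num at hn0 <;> subst hn0 <;>
              push_cast at h <;> omega
          · rcases h3 with h3 | h3 | h3 <;> simp only [h3] at hn0 h <;> norm_num at hn0 h <;> subst hn0 <;>
              push_cast at h <;> omega
        · rcases h3 with h3 | h3 | h3 <;> simp only [h3] at hn0 h <;> norm_num at hn0 <;> subst hn0 <;>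
            push_cast at h <;> omega
      · rcases h3 with h3 | h3 | h3 <;> simp only [h3] at hn0 h <;> norm_num at hn0 <;> subst hn0 <;>
          norm_num at h <;> omega
  · obtain ⟨n, hn⟩ := Pool.Agent.Y816.PD.adm_deg hp
      (X * (X + C (e N)) * (X - C (N : ℤ)) * (X - C ((N : ℤ) + f N))) (by
        have : (X * (X + C (e N)) * (X - C (N : ℤ)) * (X - C ((N : ℤ) + f N)) : ℤ[X]).Monic := by
          monicity!
        rw [this.leadingCoeff]
        intro h
        exact hp.one_lt.ne' (Nat.dvd_one.1 (Int.natCast_dvd_natCast.1 (by exact_mod_cast h)))) (by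
        refine lt_of_le_of_lt ?_ h5
        compute_degree)
    refine ⟨n, ?_⟩
    have : G N n = (X * (X + C (e N)) * (X - C (N : ℤ)) * (X - C ((N : ℤ) + f N)) : ℤ[X]).eval (n : ℤ) := by
      unfold G
      simp only [eval_mul, eval_add, eval_sub, eval_X, eval_C]
      ring
    rw [this]
    exact hn

/-- **Even numbers as sums of two twin almost primes with restricted digits.** -/
theorem result :
    ∃ c : ℝ, 0 < c ∧ ∃ r₀ : ℕ, 2 ≤ r₀ ∧ ∀ r : ℕ, r₀ ≤ r →
      ∀ b : ℕ, 2 ≤ b → ∃ κ C : ℝ, 0 < κ ∧ 0 < C ∧ ∀ᶠ N : ℕ in atTop, Even N → ∀ K : ℕ,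
        K = Nat.log b (N / 2) →
        ∀ A : ℕ → Finset ℕ, (∀ i < K, A i ⊆ range b) → (b : ℝ) ^ K ≤ Real.exp (c * K) * NA K A →
        ((∃ d ∈ A 0, (G N d).natAbs.Coprime b) → (∃ d ∈ A (K - 1), d ≠ 0) →
          κ * NA K A * WG (G N) (b ^ K) ≤
            ND b K A {n | (2 < n ∧ n < N - n) ∧ n ∈ Alm (G N) r (b ^ K)}) ∧
        (ND b K A {n | n.Prime ∧ (N - n).Prime ∧ ((n : ℤ) + e N).natAbs.Prime ∧
          ((N : ℤ) - n + f N).natAbs.Prime} : ℝ) ≤ C * NA K A * WG (G N) (b ^ K) := by
  obtain ⟨c, hc, r₀, hr₀, h⟩ := Pool.Agent.Y816.PD.uni_top 4 12 (by norm_num)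
  refine ⟨c, hc, r₀, hr₀, fun r hr b hb => ?_⟩
  have h2r : 2 ≤ r := hr₀.trans hr
  obtain ⟨κ, C₁, hκ, hC, h1⟩ := h r hr b hb
  refine ⟨κ, C₁, hκ, hC, ?_⟩
  obtain ⟨K0, hK0⟩ := eventually_atTop.1 h1
  filter_upwards [eventually_ge_atTop (2 * b ^ (K0 + 5))] with N hn hNe K hK A hA hprod
  have hb5 : 0 < b ^ (K0 + 5) := by positivity
  have hN2 : b ^ (K0 + 5) ≤ N / 2 := by omega
  have hKK : K0 + 5 ≤ K := by
    rw [hK]
    exact Nat.le_log_of_pow_le (by omega) hN2
  have hb1 : b ^ K ≤ N / 2 := by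
    rw [hK]
    exact Nat.pow_log_le_self b (by omega)
  have hb2 : N / 2 < b ^ (K + 1) := by
    rw [hK]
    exact Nat.lt_pow_succ_log_self (by omega) _
  have he : e N = 2 ∨ e N = -2 := by unfold e; split_ifs <;> simp
  have hf : f N = 2 ∨ f N = -2 := by unfold f; split_ifs <;> simp
  obtain ⟨M, hM⟩ := hNe
  have hNe : Even N := ⟨M, hM⟩
  have hpoly : ∃ P : ℤ[X], P.natDegree ≤ 4 ∧ ∀ k : ℕ, P.eval (k : ℤ) = G N k := by
    refine ⟨X * (X + C (e N)) * (X - C (N : ℤ)) * (X - C ((N : ℤ) + f N)), ?_, fun k => ?_⟩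
    · compute_degree
    · unfold G
      simp only [eval_mul, eval_add, eval_sub, eval_X, eval_C]
      ring
  have hsize : ∀ k : ℕ, k < b ^ K → (G N k).natAbs ≤ b ^ (12 * K) := by
    intro k hk
    have hy : 2 * b ^ (K + 1) + 2 ≤ b ^ (3 * K) := by
      have e1 : b ^ (3 * K) = b ^ (K + 1) * b ^ (2 * K - 1) := by rw [← pow_add]; congr 1; omega
      have e2 : 3 ≤ b ^ (2 * K - 1) := by
        calc 3 ≤ 2 ^ 2 := by norm_num
          _ ≤ b ^ 2 := Nat.pow_le_pow_left hb 2
          _ ≤ b ^ (2 * K - 1) := Nat.pow_le_pow_right (by omega) (by omega)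
      have e3 : 2 ≤ b ^ (K + 1) := hb.trans (Nat.le_self_pow (by omega) b)
      rw [e1]
      nlinarith
    have hNy : N + 2 ≤ b ^ (3 * K) := by omega
    have hkN : k ≤ N := by omega
    obtain ⟨y, hyd⟩ : ∃ y, y = b ^ (3 * K) := ⟨_, rfl⟩
    rw [← hyd] at hNy
    have f1 : ((k : ℤ)).natAbs ≤ y := by omega
    have f2 : ((k : ℤ) + e N).natAbs ≤ y := by omega
    have f3 : ((N : ℤ) - k).natAbs ≤ y := by omega
    have f4 : ((N : ℤ) - k + f N).natAbs ≤ y := by omega
    unfold G
    rw [Int.natAbs_mul, Int.natAbs_mul, Int.natAbs_mul]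
    calc _ ≤ y * y * y * y := Nat.mul_le_mul (Nat.mul_le_mul (Nat.mul_le_mul f1 f2) f3) f4
      _ = y ^ 4 := by ring
      _ = b ^ (12 * K) := by rw [hyd, ← pow_mul]; congr 1; ring
  obtain ⟨h2, h3⟩ := hK0 K (by omega) (G N) hpoly (adm hNe) hsize A hA hprod
  have hbig : 2 < b ^ (K - 1) := by
    calc 2 < 2 ^ 2 := by norm_num
      _ ≤ b ^ 2 := Nat.pow_le_pow_left hb 2
      _ ≤ b ^ (K - 1) := Nat.pow_le_pow_right (by omega) (by omega)
  constructor
  · intro hd htop
    refine (h2 hd htop).trans ?_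
    apply Nat.cast_le.2
    apply Pool.Agent.Y816.PD.ND_mono'
    intro k hkK hk
    exact ⟨⟨lt_of_lt_of_le hbig hk.1, by omega⟩, hk.2⟩
  · refine le_trans ?_ h3
    apply Nat.cast_le.2
    apply Pool.Agent.Y816.PD.ND_mono'
    intro k hkK hk
    obtain ⟨k1, k2, k3, k4⟩ := hk
    intro p hp hd
    have hpz := Nat.prime_iff_prime_int.1 hp
    have hk2 := k1.two_le
    have hk4 : k ≠ 4 := by
      rintro rfl
      norm_num at k1
    have hk3 : k < 2 * p := by
      unfold G at hd
      rcases hpz.dvd_or_dvd hd with hd | hd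
      · rcases hpz.dvd_or_dvd hd with hd | hd
        · rcases hpz.dvd_or_dvd hd with hd | hd
          · have := (Nat.prime_dvd_prime_iff_eq hp k1).1 (Int.natCast_dvd_natCast.1 hd)
            omega
          · have := (Nat.prime_dvd_prime_iff_eq hp k3).1 (Int.natCast_dvd.1 hd)
            have h3' := k3.two_le
            omega
        · have h4 : (N : ℤ) - k = ((N - k : ℕ) : ℤ) := by
            have : k ≤ N := by omega
            push_cast [Nat.cast_sub this]
            ring
          rw [h4] at hd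
          have := (Nat.prime_dvd_prime_iff_eq hp k2).1 (Int.natCast_dvd_natCast.1 hd)
          omega
      · have := (Nat.prime_dvd_prime_iff_eq hp k4).1 (Int.natCast_dvd.1 hd)
        omega
    have hp2 := hp.two_le
    calc k < 2 * p := hk3
      _ ≤ p * p := Nat.mul_le_mul_right _ hp2
      _ = p ^ 2 := by ring
      _ ≤ p ^ r := Nat.pow_le_pow_right (by omega) h2r

end Pool.Agent.Results.MP_c6d112_nt.RestrictedDigits
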