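import Mathlib
import Pool.Agent.Y827.SU.Gap

/-!
# Sums of two primes which are followed by a gap of the same length

Q1 asks whether every even `m > 4208` is a sum of two twin primes. Here the gap `2` is replaced by other fixed gaps
`h`; the gap `h` is called rich for `x` if a positive proportion of the integers `m < x` have at least
`m / (log m) ^ E` representations `m = p + q`, where `p`, `p + h` are consecutive primes and `q`, `q + h` are
consecutive primes.

Result: for every large `x` and for almost all `k`, in all bounded windows, one of `h = 2 k, 4 k, 6 k` (or `8 k`, if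
`3` does not divide `k`) is rich for `x`. (Which one may depend on `x`.)

Proof: the coloured Maynard-Tao theorem with the constant `18 / 5` and the right order of magnitude for the numbers
which make all the forms free of small primes (`Pool.Agent.Y827.RO.lamE0`); an upper bound sieve removes the other
primes of the block; the sieve and second moment bounds of the starting files (`Pool.Agent.TH882.DD.R_upper`,
`Pool.Agent.TH882.DD.avg`) give a positive proportion of sums for every dense subset of these numbers. Szemerédi's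
theorem (`Pool.Agent.Y863.AA.msz`, from the density Hales-Jewett theorem) gives four classes of shifts with the base
points `0, 2 k, 4 k, 6 k` or `0, 2 k, 6 k, 8 k` all of whose differences are `2 j k'` with exceptional `k'`.
-/

set_option autoImplicit false

namespace Pool.Agent.Results.MP_c6d112_nt.SumsOfGapPrimes

open Filter Finset

/-- `p` and `p + h` are consecutive primes -/
def Gap (h p : ℕ) : Prop := p.Prime ∧ (p + h).Prime ∧ ∀ t, 0 < t → t < h → ¬ (p + t).Prime

open Classical in
/-- the number of the `m < x` with at least `m / (log m) ^ E` representations `m = p + q`, where `p`, `p + h` are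
consecutive primes and `q`, `q + h` are consecutive primes -/
noncomputable def rich (E h x : ℕ) : ℕ :=
  ((range x).filter (fun m : ℕ => (m : ℝ) / (Real.log m) ^ E ≤
    (((range m).filter (fun p => Gap h p ∧ Gap h (m - p))).card : ℝ))).card

/-- `3` if `3 ∣ k`, otherwise `4` -/
def R (k : ℕ) : ℕ := if 3 ∣ k then 3 else 4

open Classical in
theorem result :
    ∃ E : ℕ, ∀ ε : ℝ, 0 < ε → ∃ L : ℕ, ∀ B : ℕ, ∃ c : ℝ, 0 < c ∧ ∀ᶠ x : ℕ in atTop, ∀ u H : ℕ, L ≤ H → u + H ≤ B →
      (((Ioc u (u + H)).filter (fun k : ℕ => ¬ ∃ j : ℕ, 1 ≤ j ∧ j ≤ R k ∧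
        c * (x : ℝ) ≤ (rich E (2 * (j * k)) x : ℝ))).card : ℝ) ≤ ε * H := by
  have hG : ∀ E D x : ℕ, Pool.Agent.Y827.SU.richG E D x = rich E D x := by
    intro E D x
    unfold Pool.Agent.Y827.SU.richG rich Pool.Agent.Y827.SU.repsG
    congr!
  obtain ⟨K, E₁, hK, hPX⟩ := Pool.Agent.Y827.SU.input4
  refine ⟨E₁ + 1, fun ε hε => ?_⟩
  obtain ⟨L, hL⟩ := Pool.Agent.Y827.SU.gapAlm hK hPX ε hε
  refine ⟨L, fun B => ?_⟩
  obtain ⟨c, hc, h⟩ := hL B
  refine ⟨c, hc, ?_⟩
  filter_upwards [h] with x hx u H hH hB
  refine le_trans ?_ (hx u H hH hB)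
  rw [Nat.cast_le]
  apply card_le_card
  intro k hk
  rw [mem_filter] at hk ⊢
  refine ⟨hk.1, fun j hj1 hj2 => ?_⟩
  rw [hG]
  by_contra hcon
  exact hk.2 ⟨j, hj1, hj2, not_lt.1 hcon⟩

end Pool.Agent.Results.MP_c6d112_nt.SumsOfGapPrimes
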