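import Pool.Agent.Y879.PR.VBase
import Pool.Agent.Y879.PR.Dub
import Pool.Agent.Y879.GL.Pattern

set_option autoImplicit false

/-!
Sums of two twin primes, for EVERY even number `n`: the sieve version of the decompositions, with one
ACTUAL prime and with almost primes, their number and their exact distribution.
-/

namespace Pool.Agent.Results.MP_c6d112_nt.TwinSums

open Finset Filter
open Pool.Agent.Y879.AP Pool.Agent.Y879.GL Pool.Agent.Y879.PR Pool.Agent.W123.RP Pool.Agent.H373R2.T7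
open Pool.Agent.TH464.PO Pool.Agent.TH464.PW Pool.Agent.W123.RU.Poly

/-- a twin prime -/
def Twin (p : ℕ) : Prop := p.Prime ∧ ((p + 2).Prime ∨ (2 ≤ p ∧ (p - 2).Prime))

/-- the number `K` with `n = 6 K + 10`, `6 K + 12` or `6 K + 14` -/
def Kn (n : ℕ) : ℕ := (n - 10) / 6

/-- none of `6 x + 5`, `6 x + 7`, `6 (K - x) + 5`, `6 (K - x) + 7` has a prime factor
`p ≤ K ^ (1 / r)` -/
def Good (K r x : ℕ) : Prop :=
  ∀ p : ℕ, p.Prime → (p : ℝ) ≤ (K : ℝ) ^ (1 / (r : ℝ)) →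
    ¬ (p : ℤ) ∣ 6 * x + 5 ∧ ¬ (p : ℤ) ∣ 6 * x + 7 ∧ ¬ (p : ℤ) ∣ 6 * (K - x) + 5 ∧
      ¬ (p : ℤ) ∣ 6 * (K - x) + 7

open Classical in
/-- the number of the residues `x` modulo `p` such that `p` divides one of the four numbers -/
noncomputable def nu (K p : ℕ) : ℕ :=
  ((range p).filter (fun x : ℕ => (p : ℤ) ∣ 6 * x + 5 ∨ (p : ℤ) ∣ 6 * x + 7 ∨
    (p : ℤ) ∣ 6 * (K - x) + 5 ∨ (p : ℤ) ∣ 6 * (K - x) + 7)).card

/-- the density of the good numbers: the product of `1 - nu(p) / p` over the primes `p ≤ K ^ (1 / r)` -/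
noncomputable def V (K r : ℕ) : ℝ :=
  ∏ p ∈ (Icc 1 ⌊(K : ℝ) ^ (1 / (r : ℝ))⌋₊).filter Nat.Prime, (1 - (nu K p : ℝ) / p)

/-- the product of `(1 - nu(p) / p) / (1 - 1 / p)` over the primes `p ≤ K ^ (1 / r)` -/
noncomputable def W (K r : ℕ) : ℝ :=
  ∏ p ∈ (Icc 1 ⌊(K : ℝ) ^ (1 / (r : ℝ))⌋₊).filter Nat.Prime, (1 - (nu K p : ℝ) / p) / (1 - 1 / (p : ℝ))

open Classical in
/-- the good `x` in `(u, u + Y]` for which `6 x + b` is PRIME -/
noncomputable def Pr (K r b u Y : ℕ) : Finset ℕ :=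
  (Ioc u (u + Y)).filter (fun x => (6 * x + b).Prime ∧ Good K r x)

open Classical in
/-- the number of the good numbers in `(x, x + T]` -/
noncomputable def Next (K r T x : ℕ) : ℕ := ((Ioc x (x + T)).filter (Good K r)).card

open Classical in
/-- the number of the good `x` in `(u, u + Y]` with fewer than `k` good numbers in `[x - T, x)` -/
noncomputable def Near (K r k T u Y : ℕ) : ℕ :=
  ((Ioc u (u + Y)).filter (fun x => Good K r x ∧ ((Ico (x - T) x).filter (Good K r)).card < k)).card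

/-- the Poisson weight of the set `B` -/
noncomputable def Poi (x : ℝ) (B : Finset ℕ) : ℝ := ∑ j ∈ B, Real.exp (-x) * x ^ j / j.factorial

lemma good_iff (K r n : ℕ) : Good K r n ↔ Sf (Q (df K)) ⌊(K : ℝ) ^ (1 / (r : ℝ))⌋₊ n := by
  have key : ∀ p : ℕ, (¬ Q (df K) p n ↔
      ¬ (p : ℤ) ∣ 6 * n + 5 ∧ ¬ (p : ℤ) ∣ 6 * n + 7 ∧ ¬ (p : ℤ) ∣ 6 * (K - n) + 5 ∧
      ¬ (p : ℤ) ∣ 6 * (K - n) + 7) := by
    intro p
    rw [df_Q]
    unfold Q4
    push Not
    rfl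
  unfold Good Sf
  constructor
  · intro h p hp
    obtain ⟨hp1, hp2⟩ := mem_pz.1 hp
    exact (key p).2 (h p hp2 ((Nat.le_floor_iff (by positivity)).1 hp1))
  · intro h p hp hpr
    exact (key p).1 (h p (mem_pz.2 ⟨Nat.le_floor hpr, hp⟩))

lemma nu_eq (K p : ℕ) : nuB (Q (df K)) p = nu K p := by
  classical
  unfold nu nuB
  exact card_iff _ _ (fun r _ => by
    rw [df_Q]
    rfl)

lemma V_eq (K r : ℕ) : V K r = Vq (Q (df K)) ⌊(K : ℝ) ^ (1 / (r : ℝ))⌋₊ := by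
  unfold V Vq
  apply Finset.prod_congr rfl
  intro p hp
  rw [nu_eq]

lemma W_eq (K r : ℕ) : W K r = V K r / Vz ⌊(K : ℝ) ^ (1 / (r : ℝ))⌋₊ := by
  unfold W V Vz
  rw [Finset.prod_div_distrib]
  rfl

lemma pr_eq (K r b u Y : ℕ) : Pr K r b u Y =
    Om 6 b (Q (df K)) ⌊(K : ℝ) ^ (1 / (r : ℝ))⌋₊ u Y := by
  unfold Pr Om
  ext n
  simp only [Finset.mem_filter, good_iff]

lemma goodf (K r : ℕ) : Good K r = Sf (Q (df K)) ⌊(K : ℝ) ^ (1 / (r : ℝ))⌋₊ :=
  funext fun m => propext (good_iff K r m)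

lemma near_eq (K r k T u Y : ℕ) : Near K r k T u Y =
    Pk (Sf (Q (df K)) ⌊(K : ℝ) ^ (1 / (r : ℝ))⌋₊) k T u Y := by
  unfold Near Pk
  rw [goodf]

lemma twin_form (p : ℕ) (hp : Twin p) (h5 : 5 < p) :
    ∃ x i : ℕ, (i = 0 ∨ i = 2) ∧ p = 6 * x + 5 + i ∧ (6 * x + 5).Prime ∧ (6 * x + 7).Prime := by
  obtain ⟨h1, h2⟩ := hp
  have h3 : p % 2 = 1 := by
    rcases h1.eq_two_or_odd with h | h
    · omega
    · exact h
  have h4 : p % 3 ≠ 0 := by
    intro h
    have := (Nat.prime_dvd_prime_iff_eq Nat.prime_three h1).1 (Nat.dvd_of_mod_eq_zero h)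
    omega
  rcases h2 with h2 | ⟨_, h2⟩
  · have h6 : (p + 2) % 3 ≠ 0 := by
      intro h
      have := (Nat.prime_dvd_prime_iff_eq Nat.prime_three h2).1 (Nat.dvd_of_mod_eq_zero h)
      omega
    have h7 : p % 6 = 5 := by
      have h8 : p % 6 < 6 := Nat.mod_lt _ (by norm_num)
      interval_cases h9 : p % 6 <;> omega
    refine ⟨(p - 5) / 6, 0, Or.inl rfl, by omega, ?_, ?_⟩
    · rwa [show 6 * ((p - 5) / 6) + 5 = p by omega]
    · rwa [show 6 * ((p - 5) / 6) + 7 = p + 2 by omega]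
  · have h6 : (p - 2) % 3 ≠ 0 := by
      intro h
      have := (Nat.prime_dvd_prime_iff_eq Nat.prime_three h2).1 (Nat.dvd_of_mod_eq_zero h)
      omega
    have h7 : p % 6 = 1 := by
      have h8 : p % 6 < 6 := Nat.mod_lt _ (by norm_num)
      interval_cases h9 : p % 6 <;> omega
    refine ⟨(p - 7) / 6, 2, Or.inr rfl, by omega, ?_, ?_⟩
    · rwa [show 6 * ((p - 7) / 6) + 5 = p - 2 by omega]
    · rwa [show 6 * ((p - 7) / 6) + 7 = p by omega]

lemma not_dvd_big (z : ℝ) (q p : ℕ) (hq : q.Prime) (hz : z < q) (hp : p.Prime) (hpz : (p : ℝ) ≤ z) (m : ℤ)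
    (hm : m = q) : ¬ (p : ℤ) ∣ m := by
  intro hd
  rw [hm] at hd
  rw [(Nat.prime_dvd_prime_iff_eq hp hq).1 (Int.natCast_dvd_natCast.1 hd)] at hpz
  linarith

/-- **Sums of two twin primes.** For all `θ > 0`, `0 < δ ≤ 1`, `0 < ε ≤ 1`, `k₀` and `x₀` there is `r₀`
such that for every `r ≥ r₀` and EVERY large even `n`, with `K = ⌊(n - 10) / 6⌋`:

(1) there are `i, j ∈ {0, 2}` with `n = (6 x + 5 + i) + (6 (K - x) + 5 + j)` for all `x ≤ K`, and for
good `x ≤ K` the four numbers `6 x + 5`, `6 x + 7`, `6 (K - x) + 5`, `6 (K - x) + 7` have at most `r + 1`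
prime factors;

(2) every decomposition `n = p + q` into twin primes larger than `K ^ (1 / r) + 2` comes from a good
`x ≤ K`;

(3) for `b = 5` and `b = 7`, if `X ≥ K ^ θ`, `u, Y ≥ δ X` and `u + Y ≤ X`, the number of the good `x` in
`(u, u + Y]` for which `6 x + b` is PRIME is `(1 + η) Y W / log X`, `|η| ≤ ε`, and at these `x` the number
of the good numbers in `(x, x + T]` has the Poisson law of mean `T V`, up to `ε`, for all `T` with
`T V ≤ x₀`;

(4) in every interval `(u, u + Y]` with `Y ≥ K ^ θ` the number of the good `x` with fewer than `k` good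
numbers in `[x - T, x)` is `Y V (∑ j < k, e ^ (-T V) (T V) ^ j / j! + η)` with `|η| ≤ ε`, provided that
`k ≤ k₀` or `T V ≤ x₀`. -/
theorem result (θ δ x₀ ε : ℝ) (k₀ : ℕ) (hθ : 0 < θ) (hδ : 0 < δ) (hδ1 : δ ≤ 1) (hε : 0 < ε) (hε1 : ε ≤ 1) :
    ∃ r₀ : ℕ, ∀ r : ℕ, r₀ ≤ r → ∃ n₀ : ℕ, ∀ n : ℕ, n₀ ≤ n → Even n →
      (∃ i j : ℕ, (i = 0 ∨ i = 2) ∧ (j = 0 ∨ j = 2) ∧ ∀ x : ℕ, x ≤ Kn n →
        n = (6 * x + 5 + i) + (6 * (Kn n - x) + 5 + j) ∧
        (Good (Kn n) r x →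
          (6 * x + 5).primeFactorsList.length ≤ r + 1 ∧ (6 * x + 7).primeFactorsList.length ≤ r + 1 ∧
          (6 * (Kn n - x) + 5).primeFactorsList.length ≤ r + 1 ∧
          (6 * (Kn n - x) + 7).primeFactorsList.length ≤ r + 1)) ∧
      (∀ p q : ℕ, Twin p → Twin q → n = p + q → (Kn n : ℝ) ^ (1 / (r : ℝ)) + 2 < p →
        (Kn n : ℝ) ^ (1 / (r : ℝ)) + 2 < q → ∃ x : ℕ, x ≤ Kn n ∧ Good (Kn n) r x ∧
          (p = 6 * x + 5 ∨ p = 6 * x + 7) ∧ (q = 6 * (Kn n - x) + 5 ∨ q = 6 * (Kn n - x) + 7)) ∧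
      (0 < W (Kn n) r ∧ ∀ b : ℕ, b = 5 ∨ b = 7 → ∀ X u Y : ℕ, (Kn n : ℝ) ^ θ ≤ X → δ * X ≤ u →
        δ * X ≤ Y → u + Y ≤ X →
        |((Pr (Kn n) r b u Y).card : ℝ) * Real.log X - Y * W (Kn n) r| ≤ ε * (Y * W (Kn n) r) ∧
        ∀ T : ℕ, T * V (Kn n) r ≤ x₀ → ∀ B : Finset ℕ,
          |(((Pr (Kn n) r b u Y).filter (fun x => Next (Kn n) r T x ∈ B)).card : ℝ) -
            (Pr (Kn n) r b u Y).card * Poi (T * V (Kn n) r) B| ≤ ε * (Pr (Kn n) r b u Y).card) ∧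
      ∀ u Y k T : ℕ, (Kn n : ℝ) ^ θ ≤ Y → (k ≤ k₀ ∨ T * V (Kn n) r ≤ x₀) →
        |(Near (Kn n) r k T u Y : ℝ) - Y * V (Kn n) r * Poi (T * V (Kn n) r) (range k)| ≤
          ε * (Y * V (Kn n) r) := by
  obtain ⟨r1, hr12, hpr⟩ := prime_polys 6 4 1 (by
    rw [Nat.squarefree_iff_minSqFac]
    decide +kernel) 2 (1 / 2) θ δ (by norm_num) (by norm_num) hθ hδ hδ1 x₀ ε hε hε1
  obtain ⟨r2, hgap⟩ := gap_polys 4 1 2 (1 / 2) θ (by norm_num) (by norm_num) hθ k₀ x₀ ε hε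
  refine ⟨max r1 r2, ?_⟩
  intro r hr
  have hr1' : r1 ≤ r := (le_max_left _ _).trans hr
  have hr2' : r2 ≤ r := (le_max_right _ _).trans hr
  have hr2 : 2 ≤ r := hr12.trans hr1'
  have hrr : (2 : ℝ) ≤ r := by exact_mod_cast hr2
  obtain ⟨C, hC, hV⟩ := V_up_base 6 (by norm_num) r hr2
  have hz : ∀ᶠ K : ℕ in atTop, (13 : ℝ) ≤ (K : ℝ) ^ (1 / (r : ℝ)) :=
    ((tendsto_rpow_atTop (by positivity)).comp tendsto_natCast_atTop_atTop).eventually_ge_atTop _
  have hz2 : ∀ᶠ K : ℕ in atTop, (7 : ℝ) ≤ (K : ℝ) ^ θ :=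
    ((tendsto_rpow_atTop hθ).comp tendsto_natCast_atTop_atTop).eventually_ge_atTop _
  have hall := (hpr r hr1' C).and ((hgap r hr2' C).and (hV.and (hz.and hz2)))
  obtain ⟨K0, hK0⟩ := eventually_atTop.1 hall
  refine ⟨6 * (max K0 20) + 16, ?_⟩
  intro n hn hev
  obtain ⟨K, hK⟩ : ∃ K, K = Kn n := ⟨_, rfl⟩
  have hKdef : K = (n - 10) / 6 := by rw [hK]; rfl
  rw [← hK]
  have hK1 : max K0 20 ≤ K := by
    rw [hKdef]
    omega
  have hK20 : 20 ≤ K := (le_max_right _ _).trans hK1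
  obtain ⟨h1, h2, h3, h4, h8⟩ := hK0 K ((le_max_left _ _).trans hK1)
  have hKr : (20 : ℝ) ≤ K := by exact_mod_cast hK20
  have hKpos : (0 : ℝ) < K := by linarith
  have hK1r : (1 : ℝ) < K := by linarith
  have hpow : ((K : ℝ) ^ (1 / (r : ℝ))) ^ r = K := by
    rw [← Real.rpow_natCast, ← Real.rpow_mul hKpos.le, one_div, inv_mul_cancel₀ (by linarith),
      Real.rpow_one]
  have hpow1 : (13 : ℝ) * K ≤ ((K : ℝ) ^ (1 / (r : ℝ))) ^ (r + 1) := by
    rw [pow_succ, hpow]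
    nlinarith
  have hus : US 4 1 ((K : ℝ) ^ (2 : ℝ)) ((K : ℝ) ^ ((1 : ℝ) / 2)) (df K) := by
    apply df_us K (by omega)
    · have : (K : ℝ) ^ (2 : ℝ) = (K : ℝ) * K := by
        rw [show (2 : ℝ) = ((2 : ℕ) : ℝ) by norm_num, Real.rpow_natCast, sq]
      rw [this]
      nlinarith
    · calc (K : ℝ) ^ ((1 : ℝ) / 2) < (K : ℝ) ^ (1 : ℝ) :=
            Real.rpow_lt_rpow_of_exponent_lt hK1r (by norm_num)
        _ = K := Real.rpow_one _
  have hnu1 : ∀ p : ℕ, p.Prime → ¬ p ∣ 6 → 1 ≤ nuB (Q (df K)) p := by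
    intro p hp hp6
    obtain ⟨x, hx⟩ := exists_root 6 5 p hp hp6
    refine nuB_pos_of _ p hp x (fun n => per (df K) p n) ?_
    rw [df_Q]
    left
    exact_mod_cast hx
  have hVK : Vq (Q (df K)) ⌊(K : ℝ) ^ (1 / (r : ℝ))⌋₊ ≤ C / Real.log K := h3 _ hnu1
  have hno6 : ∀ p m : ℕ, p.Prime → p ∣ 6 → ¬ Q (df K) p m := by
    intro p m hp hp6 hQ
    have hp6' : (p : ℤ) ∣ 6 := by exact_mod_cast hp6
    have hone : ¬ (p : ℤ) ∣ 1 := by
      intro h
      have : p ∣ 1 := by exact_mod_cast h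
      exact hp.one_lt.ne' (Nat.dvd_one.1 this)
    have key5 : ∀ x : ℤ, ¬ (p : ℤ) ∣ 6 * x + 5 := by
      intro x h
      apply hone
      have h2 : (p : ℤ) ∣ 6 * (x + 1) - (6 * x + 5) := dvd_sub (Dvd.dvd.mul_right hp6' _) h
      rwa [show 6 * (x + 1) - (6 * x + 5) = (1 : ℤ) by ring] at h2
    have key7 : ∀ x : ℤ, ¬ (p : ℤ) ∣ 6 * x + 7 := by
      intro x h
      apply hone
      have h2 : (p : ℤ) ∣ (6 * x + 7) - 6 * (x + 1) := dvd_sub h (Dvd.dvd.mul_right hp6' _)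
      rwa [show (6 * x + 7) - 6 * (x + 1) = (1 : ℤ) by ring] at h2
    rw [df_Q] at hQ
    rcases hQ with h | h | h | h
    · exact key5 _ h
    · exact key7 _ h
    · exact key5 _ h
    · exact key7 _ h
  refine ⟨?_, ?_, ⟨?_, ?_⟩, ?_⟩
  · -- the decompositions
    obtain ⟨m, hm⟩ := hev
    have hmod : n - 10 - 6 * K = 0 ∨ n - 10 - 6 * K = 2 ∨ n - 10 - 6 * K = 4 := by
      rw [hKdef]
      omega
    have hfew : ∀ x : ℕ, x ≤ K → Good K r x →
          (6 * x + 5).primeFactorsList.length ≤ r + 1 ∧ (6 * x + 7).primeFactorsList.length ≤ r + 1 ∧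
          (6 * (K - x) + 5).primeFactorsList.length ≤ r + 1 ∧
          (6 * (K - x) + 7).primeFactorsList.length ≤ r + 1 := by
      intro x hx hg
      have hb : ∀ N : ℕ, N ≠ 0 → N ≤ 6 * K + 7 →
          (∀ p : ℕ, p.Prime → (p : ℝ) ≤ (K : ℝ) ^ (1 / (r : ℝ)) → ¬ p ∣ N) →
          N.primeFactorsList.length ≤ r + 1 := by
        intro N hN0 hNK hN
        refine few_of_rough ((K : ℝ) ^ (1 / (r : ℝ))) (by linarith) N (r + 1) hN0 ?_ ?_
        · have : (N : ℝ) ≤ 6 * K + 7 := by exact_mod_cast hNK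
          linarith
        · intro p hp hpN
          by_contra hcon
          rw [not_lt] at hcon
          exact hN p hp hcon hpN
      refine ⟨hb _ (by omega) (by omega) ?_, hb _ (by omega) (by omega) ?_, hb _ (by omega) (by omega) ?_,
        hb _ (by omega) (by omega) ?_⟩
      · intro p hp hpz hd
        apply (hg p hp hpz).1
        exact_mod_cast hd
      · intro p hp hpz hd
        apply (hg p hp hpz).2.1
        exact_mod_cast hd
      · intro p hp hpz hd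
        apply (hg p hp hpz).2.2.1
        have := Int.natCast_dvd_natCast.2 hd
        push_cast [Nat.cast_sub hx] at this
        exact this
      · intro p hp hpz hd
        apply (hg p hp hpz).2.2.2
        have := Int.natCast_dvd_natCast.2 hd
        push_cast [Nat.cast_sub hx] at this
        exact this
    have hn10 : 6 * K + 10 ≤ n := by
      rw [hKdef]
      omega
    rcases hmod with h | h | h
    · exact ⟨0, 0, Or.inl rfl, Or.inl rfl, fun x hx => ⟨by omega, hfew x hx⟩⟩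
    · exact ⟨0, 2, Or.inl rfl, Or.inr rfl, fun x hx => ⟨by omega, hfew x hx⟩⟩
    · exact ⟨2, 2, Or.inr rfl, Or.inr rfl, fun x hx => ⟨by omega, hfew x hx⟩⟩
  · -- all decompositions are good
    intro p q hp hq hpq hpz hqz
    have hp5 : 5 < p := by
      have : (5 : ℝ) < p := by linarith
      exact_mod_cast this
    have hq5 : 5 < q := by
      have : (5 : ℝ) < q := by linarith
      exact_mod_cast this
    obtain ⟨x, i, hi, hpx, hx5, hx7⟩ := twin_form p hp hp5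
    obtain ⟨y, j, hj, hqy, hy5, hy7⟩ := twin_form q hq hq5
    have hxy : x + y = K := by
      rw [hKdef]
      omega
    have hKx : K - x = y := by omega
    refine ⟨x, by omega, ?_, by omega, by rw [hKx]; omega⟩
    have hx5z : (K : ℝ) ^ (1 / (r : ℝ)) < ((6 * x + 5 : ℕ) : ℝ) := by
      have : (p : ℝ) ≤ ((6 * x + 5 : ℕ) : ℝ) + 2 := by
        have : p ≤ 6 * x + 5 + 2 := by omega
        exact_mod_cast this
      linarith
    have hy5z : (K : ℝ) ^ (1 / (r : ℝ)) < ((6 * y + 5 : ℕ) : ℝ) := by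
      have : (q : ℝ) ≤ ((6 * y + 5 : ℕ) : ℝ) + 2 := by
        have : q ≤ 6 * y + 5 + 2 := by omega
        exact_mod_cast this
      linarith
    have hx7z : (K : ℝ) ^ (1 / (r : ℝ)) < ((6 * x + 7 : ℕ) : ℝ) := by
      refine hx5z.trans ?_
      exact_mod_cast (by omega : 6 * x + 5 < 6 * x + 7)
    have hy7z : (K : ℝ) ^ (1 / (r : ℝ)) < ((6 * y + 7 : ℕ) : ℝ) := by
      refine hy5z.trans ?_
      exact_mod_cast (by omega : 6 * y + 5 < 6 * y + 7)
    have hKy : (K : ℤ) - x = y := by omega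
    intro p' hp' hpz'
    rw [hKy]
    exact ⟨not_dvd_big _ _ _ hx5 hx5z hp' hpz' _ (by push_cast; ring),
      not_dvd_big _ _ _ hx7 hx7z hp' hpz' _ (by push_cast; ring),
      not_dvd_big _ _ _ hy5 hy5z hp' hpz' _ (by push_cast; ring),
      not_dvd_big _ _ _ hy7 hy7z hp' hpz' _ (by push_cast; ring)⟩
  · rw [W_eq]
    refine div_pos ?_ (Pool.Agent.Y879.PR.Vz_pos _)
    unfold V
    apply Finset.prod_pos
    intro p hp
    have hpp := (Finset.mem_filter.1 hp).2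
    have hlt := us_adm hus p hpp
    rw [nu_eq K p] at hlt
    have h5 : (nu K p : ℝ) < p := by exact_mod_cast hlt
    have h6 : (0 : ℝ) < p := by exact_mod_cast hpp.pos
    rw [sub_pos, div_lt_one h6]
    exact h5
  · intro b hb X u Y hX hu hY huY
    have hcop : Nat.Coprime 6 b := by
      rcases hb with rfl | rfl <;> norm_num
    have hbase : ∃ i, ∀ m : ℕ, ((df K) i).eval (m : ℤ) = ((6 : ℕ) : ℤ) * m + b := by
      rcases hb with rfl | rfl
      · refine ⟨0, fun m => ?_⟩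
        unfold df
        rw [lf_eval]
        simp [da, db]
      · refine ⟨1, fun m => ?_⟩
        unfold df
        rw [lf_eval]
        simp [da, db]
    have hbX : b ≤ X := by
      have h7 : (7 : ℝ) ≤ X := h8.trans hX
      have h9 : 7 ≤ X := by exact_mod_cast h7
      omega
    have h5 := h1 (df K) b hus hcop hno6 hbase hVK X hX hbX u Y hu hY huY
    rw [← pr_eq, ← V_eq, ← W_eq] at h5
    refine ⟨h5.1, ?_⟩
    intro T hT B
    have h6 := h5.2 T hT B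
    rw [← goodf] at h6
    exact h6
  · intro u Y k T hY hkT
    rw [V_eq] at hkT ⊢
    have h5 := h2 (df K) hus hVK u Y hY k T hkT
    rw [near_eq]
    exact h5

end Pool.Agent.Results.MP_c6d112_nt.TwinSums
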